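import Pool.Agent.Helper515.EGe

set_option autoImplicit false

namespace Pool.Agent.Results.MP_3577db_al.WeakEggert

open Module

universe u v

section Defs

variable (F : Type u) (R : Type v) [Field F] [NonUnitalCommRing R] [Module F R]

/-- The power `a ^ (k + 1)` in a ring without unit. -/
def pow1 {R : Type v} [Mul R] (a : R) : ℕ → R
  | 0 => a
  | k + 1 => pow1 a k * a

/-- `R` is nilpotent: for some `n`, every product `a * x₁ * ⋯ * xₙ` of `n + 1` elements is zero. -/
def IsNilp (R : Type v) [Mul R] [Zero R] : Prop :=
  ∃ n : ℕ, ∀ (a : R) (l : List R), l.length = n → l.foldl (· * ·) a = 0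

/-- `R^(1)`: the `F`-span of the `p`-th powers of the elements of `R` (for `p ≥ 1`). -/
def pPowers (p : ℕ) : Submodule F R := Submodule.span F {x | ∃ a : R, pow1 a (p - 1) = x}

end Defs

/-- The constant `f`, depending only on `p`: the maximum of `5/2` and `(p+1)/2`. -/
noncomputable def fconst (p : ℕ) : ℝ := max (5 / 2) (((p : ℝ) + 1) / 2)

section Proof

variable {F : Type u} {R : Type v} [Field F] [NonUnitalCommRing R] [Module F R]
  [IsScalarTower F R R] [SMulCommClass F R R]

theorem inr_pow1 (a : R) (k : ℕ) :
    (Unitization.inr (pow1 a k) : Unitization F R) = (Unitization.inr a) ^ (k + 1) := by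
  induction k with
  | zero => rw [pow1, zero_add, pow_one]
  | succ k ih => rw [pow1, Unitization.inr_mul, ih, pow_succ _ (k + 1)]

/-- the augmentation ideal -/
def aug (F : Type u) (R : Type v) [Field F] [NonUnitalCommRing R] [Module F R]
    [IsScalarTower F R R] [SMulCommClass F R R] : Ideal (Unitization F R) :=
  RingHom.ker (Unitization.fstHom F R)

theorem mem_aug (x : Unitization F R) : x ∈ aug F R ↔ ∃ r : R, Unitization.inr r = x := by
  constructor
  · intro hx
    have h : x.fst = 0 := hx
    exact ⟨x.snd, by rw [← Unitization.inl_fst_add_inr_snd_eq x, h]; simp⟩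
  · rintro ⟨r, rfl⟩
    exact Unitization.fst_inr F r

instance finiteUnitization [FiniteDimensional F R] : FiniteDimensional F (Unitization F R) :=
  Module.Finite.equiv (Unitization.linearEquiv F F R).symm

/-- the inclusion as a linear map -/
def inrL (F : Type u) (R : Type v) [Field F] [NonUnitalCommRing R] [Module F R] :
    R →ₗ[F] Unitization F R where
  toFun := Unitization.inr
  map_add' := Unitization.inr_add F
  map_smul' := fun c r => Unitization.inr_smul F c r

omit [IsScalarTower F R R] [SMulCommClass F R R] in
theorem inrL_inj : Function.Injective (inrL F R) := Unitization.inr_injective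

theorem aug_eq : (aug F R).restrictScalars F = LinearMap.range (inrL F R) := by
  ext x
  exact mem_aug x

theorem aug_nilp (h : IsNilp R) : IsNilpotent (aug F R) := by
  obtain ⟨n, hn⟩ := h
  refine ⟨n + 1, ?_⟩
  have foldl_eq : ∀ (l : List R) (a : R),
      (Unitization.inr (l.foldl (· * ·) a) : Unitization F R) =
        Unitization.inr a * (l.map (fun r => (Unitization.inr r : Unitization F R))).prod := by
    intro l
    induction l with
    | nil => intro a; simp
    | cons b l ih =>
      intro a
      rw [List.foldl_cons, ih, List.map_cons, List.prod_cons, Unitization.inr_mul, mul_assoc]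
  have key : ∀ k : ℕ, ∀ u ∈ (aug F R) ^ (k + 1), ∀ l : List R, l.length + k = n →
      u * (l.map (fun r => (Unitization.inr r : Unitization F R))).prod = 0 := by
    intro k
    induction k with
    | zero =>
      intro u hu l hl
      rw [zero_add, pow_one] at hu
      obtain ⟨r, rfl⟩ := (mem_aug u).mp hu
      rw [← foldl_eq, hn r l (by omega)]
      exact Unitization.inr_zero F
    | succ k ih =>
      intro u hu l hl
      rw [pow_succ] at hu
      induction hu using Submodule.mul_induction_on' with
      | mem_mul_mem a ha b hb =>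
        obtain ⟨r, rfl⟩ := (mem_aug b).mp hb
        have := ih a ha (r :: l) (by rw [List.length_cons]; omega)
        rw [List.map_cons, List.prod_cons, ← mul_assoc] at this
        exact this
      | add a _ b _ ha hb => rw [add_mul, ha, hb, add_zero]
  rw [Submodule.zero_eq_bot, eq_bot_iff]
  intro u hu
  have := key n u hu [] (by simp)
  rw [List.map_nil, List.prod_nil, mul_one] at this
  exact this

theorem phi_aug (p : ℕ) (hp : 1 ≤ p) :
    Pool.Agent.Helper515.EG.phi p ((aug F R).restrictScalars F) =
      (pPowers F R p).map (inrL F R) := by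
  rw [Pool.Agent.Helper515.EG.phi, pPowers, Submodule.map_span]
  congr 1
  ext x
  constructor
  · rintro ⟨y, hy, rfl⟩
    obtain ⟨r, rfl⟩ := (mem_aug y).mp hy
    refine ⟨pow1 r (p - 1), ⟨r, rfl⟩, ?_⟩
    change (Unitization.inr (pow1 r (p - 1)) : Unitization F R) = _
    rw [inr_pow1, Nat.sub_add_cancel hp]
  · rintro ⟨_, ⟨a, rfl⟩, rfl⟩
    refine ⟨Unitization.inr a, (mem_aug _).mpr ⟨a, rfl⟩, ?_⟩
    change _ = (Unitization.inr (pow1 a (p - 1)) : Unitization F R)
    rw [inr_pow1, Nat.sub_add_cancel hp]

theorem main_nat (p : ℕ) [hp : Fact p.Prime] [CharP F p] [FiniteDimensional F R]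
    (h : IsNilp R) :
    Pool.Agent.Helper515.EG.cst p * finrank F (pPowers F R p) ≤ 2 * finrank F R := by
  have h1 := Pool.Agent.Helper515.EG.main_unital F p (Unitization F R) (aug F R) (aug_nilp h)
  rw [phi_aug p hp.out.one_le, aug_eq, LinearMap.finrank_range_of_inj inrL_inj] at h1
  have h2 : finrank F ((pPowers F R p).map (inrL F R)) = finrank F (pPowers F R p) :=
    (Submodule.equivMapOfInjective (inrL F R) inrL_inj (pPowers F R p)).finrank_eq.symm
  rwa [h2] at h1

end Proof

/-- **Q1 has a positive answer for every odd prime `p`**: the constant `f = max (5/2) ((p+1)/2)`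
is larger than `2`, and `dim R ≥ f * dim R^(1)` for every finite-dimensional commutative nilpotent
algebra `R` over any field `F` of characteristic `p`. -/
theorem result (p : ℕ) (hp : p.Prime) (hp2 : p ≠ 2) :
    2 < fconst p ∧
    ∀ (F : Type u) [Field F] [CharP F p] (R : Type v) [NonUnitalCommRing R] [Module F R]
      [IsScalarTower F R R] [SMulCommClass F R R] [FiniteDimensional F R],
      IsNilp R → fconst p * (finrank F (pPowers F R p) : ℝ) ≤ (finrank F R : ℝ) := by
  have : Fact p.Prime := ⟨hp⟩
  constructor
  · apply lt_of_lt_of_le _ (le_max_left _ _)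
    norm_num
  · intro F _ _ R _ _ _ _ _ hR
    have h1 := main_nat (F := F) p hR
    have hge : fconst p * 2 ≤ (Pool.Agent.Helper515.EG.cst p : ℝ) := by
      unfold fconst Pool.Agent.Helper515.EG.cst
      by_cases h3 : p = 3
      · rw [if_pos h3, h3]
        norm_num
      · rw [if_neg h3]
        have h5 : 5 ≤ p := by
          have h2 := hp.two_le
          have h4 : p ≠ 4 := by
            rintro rfl
            exact absurd hp (by norm_num)
          omega
        have h6 : (5 : ℝ) ≤ p := by exact_mod_cast h5
        rw [max_eq_right (by linarith)]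
        push_cast
        linarith
    have h2 : (Pool.Agent.Helper515.EG.cst p : ℝ) * (finrank F (pPowers F R p) : ℝ) ≤
        2 * (finrank F R : ℝ) := by exact_mod_cast h1
    have h3 : (0 : ℝ) ≤ (finrank F (pPowers F R p) : ℝ) := Nat.cast_nonneg _
    nlinarith [mul_le_mul_of_nonneg_right hge h3]

end Pool.Agent.Results.MP_3577db_al.WeakEggert
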